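import Mathlib

open Polynomial

namespace Pool.Agent.Results.MP_f0d684_an.NotSectorReducing

/-- The closed convex sector of half-opening `θ` around the nonnegative real axis. -/
def Sector (θ : ℝ) : Set ℂ := {z | z = 0 ∨ |z.arg| ≤ θ}

/-- The diagonal operator `x^k ↦ γ k * x^k` on real polynomials. -/
noncomputable def diagOp (γ : ℕ → ℝ) : ℝ[X] →ₗ[ℝ] ℝ[X] :=
  Polynomial.lsum fun k => (γ k) • Polynomial.monomial k

/-- The diagonal operator with multipliers `exp (-α k^p)`. -/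
noncomputable def T (α p : ℝ) : ℝ[X] →ₗ[ℝ] ℝ[X] :=
  diagOp fun k => Real.exp (-α * (k : ℝ) ^ p)

/-- Zero-sector reducing operators. -/
def ZeroSectorReducing (L : ℝ[X] →ₗ[ℝ] ℝ[X]) : Prop :=
  ∀ θ : ℝ, 0 < θ → θ < Real.pi / 2 → ∃ g : ℝ, 0 ≤ g ∧ g < θ ∧
    ∀ f : ℝ[X], f ≠ 0 → (∀ z : ℂ, aeval z f = 0 → z ∈ Sector θ) →
      ∀ z : ℂ, aeval z (L f) = 0 → z ∈ Sector g

/-- The cubic `(1 - x)^3`. -/
noncomputable def cub : ℝ[X] := C 1 - C 3 * X + C 3 * X ^ 2 - C 1 * X ^ 3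

lemma diagOp_monomial (γ : ℕ → ℝ) (k : ℕ) (a : ℝ) :
    diagOp γ (monomial k a) = monomial k (γ k * a) := by
  simp [diagOp, Polynomial.lsum_apply, Polynomial.sum_monomial_index, Polynomial.smul_monomial]

lemma diag_cub (γ : ℕ → ℝ) (h0 : γ 0 = 1) :
    diagOp γ cub = C 1 - C (3 * γ 1) * X + C (3 * γ 2) * X ^ 2 - C (γ 3) * X ^ 3 := by
  have h : cub = monomial 0 1 - monomial 1 3 + monomial 2 3 - monomial 3 1 := by
    simp only [cub, ← C_mul_X_pow_eq_monomial]
    simp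
  rw [h]
  simp only [map_sub, map_add, diagOp_monomial]
  simp only [← C_mul_X_pow_eq_monomial, h0, pow_zero, pow_one, mul_one]
  rw [mul_comm (γ 1) 3, mul_comm (γ 2) 3]

lemma cub_eval (z : ℂ) : aeval z cub = (1 - z) ^ 3 := by
  simp only [cub, map_sub, map_add, map_mul, map_pow, aeval_X, aeval_C, map_one, map_ofNat]
  ring

lemma cub_ne : cub ≠ 0 := by
  intro h
  have h1 : eval 0 cub = 0 := by rw [h]; simp
  simp [cub] at h1

/-- the discriminant expression is nonnegative if the cubic has only real zeros -/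
lemma disc_nonneg {a b c : ℝ} (hc : c ≠ 0)
    (h : ∀ z : ℂ, aeval z (C 1 - C (3 * a) * X + C (3 * b) * X ^ 2 - C c * X ^ 3 : ℝ[X]) = 0 →
      z.im = 0) :
    0 ≤ 6 * a * b * c - 4 * b ^ 3 + 3 * a ^ 2 * b ^ 2 - 4 * a ^ 3 * c - c ^ 2 := by
  set P : Cubic ℝ := ⟨-c, 3 * b, -(3 * a), 1⟩ with hP
  have ha : P.a ≠ 0 := by simp [hP, hc]
  have hs : Splits (P.toPoly.map (algebraMap ℝ ℂ)) := IsAlgClosed.splits _
  obtain ⟨x, y, z, h3⟩ := (Cubic.splits_iff_roots_eq_three ha).1 hs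
  have hd := Cubic.discr_eq_prod_three_roots ha h3
  have key : ∀ w ∈ (Cubic.map (algebraMap ℝ ℂ) P).roots, w.im = 0 := by
    intro w hw
    apply h
    have hw' := (Polynomial.mem_roots' .. |>.1 hw).2
    rw [Polynomial.IsRoot, Cubic.map_toPoly, Polynomial.eval_map_algebraMap] at hw'
    rw [← hw']
    simp only [hP, Cubic.toPoly, map_sub, map_add, map_mul, map_pow, aeval_X, aeval_C, map_neg]
    ring
  rw [h3] at key
  have hx : x.im = 0 := key x (by simp)
  have hy : y.im = 0 := key y (by simp)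
  have hz : z.im = 0 := key z (by simp)
  have hx' : x = (x.re : ℂ) := by apply Complex.ext <;> simp [hx]
  have hy' : y = (y.re : ℂ) := by apply Complex.ext <;> simp [hy]
  have hz' : z = (z.re : ℂ) := by apply Complex.ext <;> simp [hz]
  rw [hx', hy', hz'] at hd
  have hd2 : P.discr = (P.a * P.a * (x.re - y.re) * (x.re - z.re) * (y.re - z.re)) ^ 2 := by
    have : ((P.discr : ℝ) : ℂ) =
      (((P.a * P.a * (x.re - y.re) * (x.re - z.re) * (y.re - z.re)) ^ 2 : ℝ) : ℂ) := by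
      push_cast
      simpa using hd
    exact_mod_cast this
  have hd3 : 0 ≤ P.discr := by rw [hd2]; positivity
  simp only [hP, Cubic.discr] at hd3
  nlinarith [hd3]

/-- a complex number in all small sectors is real -/
lemma im_zero_of_sector {z : ℂ} (h : ∀ θ : ℝ, 0 < θ → θ < Real.pi / 2 → z ∈ Sector θ) :
    z.im = 0 := by
  by_cases hz : z = 0
  · simp [hz]
  have harg : z.arg = 0 := by
    by_contra hne
    have hpos : 0 < |z.arg| := abs_pos.2 hne
    have hpi := Real.pi_pos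
    have h1 := h (min (|z.arg| / 2) (Real.pi / 4)) (lt_min (by linarith) (by linarith))
      (lt_of_le_of_lt (min_le_right _ _) (by linarith))
    rcases h1 with h1 | h1
    · exact hz h1
    · have := le_trans h1 (min_le_left _ _)
      linarith
  have := (Complex.arg_eq_zero_iff).1 harg
  exact this.2

lemma exp_taylor {x : ℝ} (hx : |x| ≤ 1) :
    |Real.exp x - (1 + x + x ^ 2 / 2)| ≤ |x| ^ 3 * (2 / 9) := by
  have h := Real.exp_bound hx (n := 3) (by norm_num)
  have e1 : (∑ m ∈ Finset.range 3, x ^ m / (m.factorial : ℝ)) = 1 + x + x ^ 2 / 2 := by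
    simp [Finset.sum_range_succ, Nat.factorial]
  rw [e1] at h
  refine h.trans (le_of_eq ?_)
  simp [Nat.factorial]
  norm_num

lemma gap_pos {p : ℝ} (hp : 2 < p) : 0 < (3 : ℝ) ^ p - 3 * 2 ^ p + 3 := by
  obtain ⟨q, rfl⟩ : ∃ q, p = 2 + q := ⟨p - 2, by ring⟩
  have hq : 0 < q := by linarith
  have h3 : (3 : ℝ) ^ (2 + q) = 9 * 3 ^ q := by
    rw [Real.rpow_add (by norm_num)]; norm_num
  have h2 : (2 : ℝ) ^ (2 + q) = 4 * 2 ^ q := by
    rw [Real.rpow_add (by norm_num)]; norm_num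
  rw [h3, h2]
  -- weighted AM-GM
  have hag := Real.geom_mean_le_arith_mean2_weighted (w₁ := 3 / 4) (w₂ := 1 / 4)
    (p₁ := (3 : ℝ) ^ q) (p₂ := 1) (by norm_num) (by norm_num) (by positivity) (by norm_num)
    (by norm_num)
  rw [Real.one_rpow, mul_one] at hag
  have h4 : (2 : ℝ) ^ q < ((3 : ℝ) ^ q) ^ (3 / 4 : ℝ) := by
    rw [← Real.rpow_mul (by norm_num), mul_comm q, Real.rpow_mul (by norm_num)]
    apply Real.rpow_lt_rpow (by norm_num) _ hq
    have : (2 : ℝ) = (16 : ℝ) ^ (1 / 4 : ℝ) := by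
      rw [show (16 : ℝ) = 2 ^ (4 : ℝ) by norm_num, ← Real.rpow_mul (by norm_num)]
      norm_num
    rw [this]
    rw [show (3 / 4 : ℝ) = 3 * (1 / 4) by norm_num, Real.rpow_mul (by norm_num)]
    apply Real.rpow_lt_rpow (by norm_num) _ (by norm_num)
    norm_num
  linarith

/-- For every real `p > 2` there is `α₀ > 0` such that for all `0 < α < α₀` the operator with
multipliers `exp (-α k^p)` is not zero-sector reducing. -/
theorem result : ∀ p : ℝ, 2 < p → ∃ α₀ : ℝ, 0 < α₀ ∧ ∀ α : ℝ, 0 < α → α < α₀ →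
    ¬ ZeroSectorReducing (T α p) := by
  intro p hp
  set u : ℝ := (2 : ℝ) ^ p with hu
  set v : ℝ := (3 : ℝ) ^ p with hv
  have hg : 0 < v - 3 * u + 3 := gap_pos hp
  have hu0 : 0 < u := by positivity
  have hv0 : 0 < v := by positivity
  set M : ℝ := 3 + 3 * u + 2 * v with hM
  have hM0 : 0 < M := by positivity
  refine ⟨min (1 / M) ((v - 3 * u + 3) ^ 2 / (4 * M ^ 3)), by positivity, ?_⟩
  intro α hα hα0 hZ
  have hα1 : α < 1 / M := lt_of_lt_of_le hα0 (min_le_left _ _)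
  have hα2 : α < (v - 3 * u + 3) ^ 2 / (4 * M ^ 3) := lt_of_lt_of_le hα0 (min_le_right _ _)
  rw [lt_div_iff₀ hM0] at hα1
  rw [lt_div_iff₀ (by positivity)] at hα2
  have hT : T α p cub = C 1 - C (3 * Real.exp (-α)) * X + C (3 * Real.exp (-α * u)) * X ^ 2
      - C (Real.exp (-α * v)) * X ^ 3 := by
    have := diag_cub (fun k : ℕ => Real.exp (-α * (k : ℝ) ^ p)) (by
      simp [Real.zero_rpow (by linarith : p ≠ 0)])
    simpa [T, hu, hv] using this
  have hreal : ∀ z : ℂ, aeval z (T α p cub) = 0 → z.im = 0 := by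
    intro z hz
    apply im_zero_of_sector
    intro θ h1 h2
    obtain ⟨g, hg0, hg1, H⟩ := hZ θ h1 h2
    have hz2 := H cub cub_ne (by
      intro w hw
      rw [cub_eval] at hw
      have : w = 1 := by
        have := pow_eq_zero_iff (by norm_num : (3 : ℕ) ≠ 0) |>.1 hw
        linear_combination -this
      right
      rw [this]; simp [h1.le]) z hz
    rcases hz2 with h | h
    · exact Or.inl h
    · exact Or.inr (h.trans hg1.le)
  rw [hT] at hreal
  have hdisc := disc_nonneg (Real.exp_ne_zero _) hreal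
  -- expansion
  have e1 : Real.exp (-α) * Real.exp (-α * u) * Real.exp (-α * v)
      = Real.exp (-(α * (1 + u + v))) := by
    rw [← Real.exp_add, ← Real.exp_add]; congr 1; ring
  have e2 : Real.exp (-α * u) ^ 3 = Real.exp (-(α * (3 * u))) := by
    rw [← Real.exp_nat_mul]; congr 1; push_cast; ring
  have e3 : Real.exp (-α) ^ 2 * Real.exp (-α * u) ^ 2 = Real.exp (-(α * (2 + 2 * u))) := by
    rw [← Real.exp_nat_mul, ← Real.exp_nat_mul, ← Real.exp_add]; congr 1; push_cast; ring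
  have e4 : Real.exp (-α) ^ 3 * Real.exp (-α * v) = Real.exp (-(α * (3 + v))) := by
    rw [← Real.exp_nat_mul, ← Real.exp_add]; congr 1; push_cast; ring
  have e5 : Real.exp (-α * v) ^ 2 = Real.exp (-(α * (2 * v))) := by
    rw [← Real.exp_nat_mul]; congr 1; push_cast; ring
  have hexp : 6 * Real.exp (-α) * Real.exp (-α * u) * Real.exp (-α * v)
      - 4 * Real.exp (-α * u) ^ 3 + 3 * Real.exp (-α) ^ 2 * Real.exp (-α * u) ^ 2
      - 4 * Real.exp (-α) ^ 3 * Real.exp (-α * v) - Real.exp (-α * v) ^ 2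
      = 6 * Real.exp (-(α * (1 + u + v))) - 4 * Real.exp (-(α * (3 * u)))
        + 3 * Real.exp (-(α * (2 + 2 * u))) - 4 * Real.exp (-(α * (3 + v)))
        - Real.exp (-(α * (2 * v))) := by
    rw [← e1, ← e2, ← e3, ← e4, ← e5]; ring
  rw [hexp] at hdisc
  have bound : ∀ c : ℝ, 0 < c → c ≤ M →
      |Real.exp (-(α * c)) - (1 + (-(α * c)) + (-(α * c)) ^ 2 / 2)| ≤ (α * M) ^ 3 * (2 / 9) := by
    intro c hc0 hcM
    have h0 : |-(α * c)| = α * c := by rw [abs_neg, abs_of_pos (by positivity)]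
    have h1 : α * c ≤ α * M := by gcongr
    have h2 := exp_taylor (x := -(α * c)) (by rw [h0]; linarith)
    rw [h0] at h2
    refine h2.trans ?_
    gcongr
  have b1 := abs_le.1 (bound (1 + u + v) (by positivity) (by rw [hM]; linarith))
  have b2 := abs_le.1 (bound (3 * u) (by positivity) (by rw [hM]; linarith))
  have b3 := abs_le.1 (bound (2 + 2 * u) (by positivity) (by rw [hM]; linarith))
  have b4 := abs_le.1 (bound (3 + v) (by positivity) (by rw [hM]; linarith))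
  have b5 := abs_le.1 (bound (2 * v) (by positivity) (by rw [hM]; linarith))
  have hmain : 0 ≤ -α ^ 2 * (v - 3 * u + 3) ^ 2 + 4 * (α * M) ^ 3 := by
    have hid : 6 * (1 + (-(α * (1 + u + v))) + (-(α * (1 + u + v))) ^ 2 / 2)
        - 4 * (1 + (-(α * (3 * u))) + (-(α * (3 * u))) ^ 2 / 2)
        + 3 * (1 + (-(α * (2 + 2 * u))) + (-(α * (2 + 2 * u))) ^ 2 / 2)
        - 4 * (1 + (-(α * (3 + v))) + (-(α * (3 + v))) ^ 2 / 2)
        - (1 + (-(α * (2 * v))) + (-(α * (2 * v))) ^ 2 / 2)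
        = -α ^ 2 * (v - 3 * u + 3) ^ 2 := by ring
    rw [← hid]
    linarith [b1.1, b1.2, b2.1, b2.2, b3.1, b3.2, b4.1, b4.2, b5.1, b5.2, hdisc]
  have hα3 : α ^ 2 * (α * (4 * M ^ 3)) < α ^ 2 * (v - 3 * u + 3) ^ 2 := by
    apply mul_lt_mul_of_pos_left hα2 (by positivity)
  nlinarith [hmain, hα3]

end Pool.Agent.Results.MP_f0d684_an.NotSectorReducing
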